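import Mathlib

/-!
# Layers in a coset graph

Let a group `G` act on a finite set `V` and let `X` be a finite symmetric subset of `G`. Starting with
`C 0 = {y}`, `C 1 = X • y` and `C (i+2) = X • C (i+1) \ C i`, the sets `C i` are the layers of the
breadth first search in the bipartite double cover of the graph of the action. As this graph is
regular, all layers but the first one and the last one have at least two elements, so `C i` is empty
for `i > |V|`.
-/

set_option autoImplicit false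

namespace Pool.Agent.R651

variable {G V : Type*} [Group G] [MulAction G V]

/-- The sets `C i`. -/
def layer (X : Set G) (y : V) : ℕ → Set V
  | 0 => {y}
  | 1 => {c | ∃ h ∈ X, c = h • y}
  | (i + 2) => {c | ∃ h ∈ X, ∃ x ∈ layer X y (i + 1), c = h • x} \ layer X y i

variable {X : Set G} {y : V}

theorem mem_layer_one {c : V} : c ∈ layer X y 1 ↔ ∃ h ∈ X, c = h • y := Iff.rfl

theorem mem_layer_add_two {i : ℕ} {c : V} :
    c ∈ layer X y (i + 2) ↔ (∃ h ∈ X, ∃ x ∈ layer X y (i + 1), c = h • x) ∧ c ∉ layer X y i :=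
  Iff.rfl

theorem exists_prev {i : ℕ} {c : V} (hc : c ∈ layer X y (i + 1)) :
    ∃ h ∈ X, ∃ x ∈ layer X y i, c = h • x := by
  rcases i with _ | i
  · obtain ⟨h, hh, rfl⟩ := hc
    exact ⟨h, hh, y, rfl, rfl⟩
  · exact hc.1

theorem next_zero {h : G} (hh : h ∈ X) {x : V} (hx : x ∈ layer X y 0) : h • x ∈ layer X y 1 := by
  obtain rfl : x = y := hx
  exact ⟨h, hh, rfl⟩

theorem next_succ {i : ℕ} {h : G} (hh : h ∈ X) {x : V} (hx : x ∈ layer X y (i + 1)) :
    h • x ∈ layer X y i ∨ h • x ∈ layer X y (i + 2) := by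
  by_cases h1 : h • x ∈ layer X y i
  · exact Or.inl h1
  · exact Or.inr ⟨⟨h, hh, x, hx, rfl⟩, h1⟩

/-- Layers of the same parity are disjoint. -/
theorem disj (hX : ∀ h ∈ X, h⁻¹ ∈ X) : ∀ (j i k : ℕ), j = i + 2 * (k + 1) → ∀ x : V,
    x ∈ layer X y i → x ∈ layer X y j → False := by
  intro j
  induction j using Nat.strong_induction_on with
  | _ j ih =>
    intro i k hj x hxi hxj
    rcases k with _ | k
    · subst hj
      exact hxj.2 hxi
    · obtain ⟨j', rfl⟩ : ∃ j', j = j' + 1 := ⟨j - 1, by omega⟩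
      obtain ⟨h, hh, z, hz, rfl⟩ := exists_prev hxj
      have hz' : z = h⁻¹ • (h • z) := by rw [inv_smul_smul]
      rcases i with _ | i
      · have h1 : h⁻¹ • (h • z) ∈ layer X y 1 := next_zero (hX h hh) hxi
        rw [← hz'] at h1
        exact ih j' (by omega) 1 k (by omega) z h1 hz
      · rcases next_succ (hX h hh) hxi with h1 | h1
        · rw [← hz'] at h1
          exact ih j' (by omega) i (k + 1) (by omega) z h1 hz
        · rw [← hz'] at h1
          exact ih j' (by omega) (i + 2) k (by omega) z h1 hz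

section Count

open Classical

variable [Fintype V]

/-- The layer as a finite set. -/
noncomputable def fl (X : Set G) (y : V) (i : ℕ) : Finset V := (layer X y i).toFinset

theorem mem_fl {i : ℕ} {x : V} : x ∈ fl X y i ↔ x ∈ layer X y i := by
  rw [fl, Set.mem_toFinset]

variable (Y : Finset G)

/-- The number of edges from `A` to `B`. -/
noncomputable def edges (A B : Finset V) : ℕ := ((A ×ˢ Y).filter fun p => p.2 • p.1 ∈ B).card

theorem edges_symm (hY : ∀ h ∈ Y, h⁻¹ ∈ Y) (A B : Finset V) : edges Y A B = edges Y B A := by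
  unfold edges
  refine Finset.card_bij' (fun p _ => (p.2 • p.1, p.2⁻¹)) (fun p _ => (p.2 • p.1, p.2⁻¹)) ?_ ?_ ?_ ?_
  · rintro ⟨x, h⟩ hp
    simp only [Finset.mem_filter, Finset.mem_product] at hp ⊢
    exact ⟨⟨hp.2, hY h hp.1.2⟩, by rw [inv_smul_smul]; exact hp.1.1⟩
  · rintro ⟨x, h⟩ hp
    simp only [Finset.mem_filter, Finset.mem_product] at hp ⊢
    exact ⟨⟨hp.2, hY h hp.1.2⟩, by rw [inv_smul_smul]; exact hp.1.1⟩
  · rintro ⟨x, h⟩ _
    simp
  · rintro ⟨x, h⟩ _
    simp

theorem edges_zero : edges Y (fl (Y : Set G) y 0) (fl (Y : Set G) y 1) = Y.card := by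
  unfold edges
  rw [Finset.filter_true_of_mem]
  · have : fl (Y : Set G) y 0 = {y} := by
      ext x
      rw [mem_fl, Finset.mem_singleton]
      rfl
    rw [this, Finset.card_product, Finset.card_singleton, one_mul]
  · rintro ⟨x, h⟩ hp
    rw [Finset.mem_product] at hp
    rw [mem_fl]
    exact next_zero (X := (Y : Set G)) (Finset.mem_coe.2 hp.2) (mem_fl.1 hp.1)

theorem edges_succ (hY : ∀ h ∈ Y, h⁻¹ ∈ Y) (i : ℕ) :
    edges Y (fl (Y : Set G) y (i + 1)) (fl (Y : Set G) y i) +
      edges Y (fl (Y : Set G) y (i + 1)) (fl (Y : Set G) y (i + 2)) =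
    Y.card * (fl (Y : Set G) y (i + 1)).card := by
  unfold edges
  rw [← Finset.card_union_of_disjoint]
  · rw [← Finset.filter_or, Finset.filter_true_of_mem, Finset.card_product, mul_comm]
    rintro ⟨x, h⟩ hp
    rw [Finset.mem_product] at hp
    rw [mem_fl, mem_fl]
    exact next_succ (X := (Y : Set G)) (Finset.mem_coe.2 hp.2) (mem_fl.1 hp.1)
  · rw [Finset.disjoint_left]
    rintro ⟨x, h⟩ h1 h2
    rw [Finset.mem_filter] at h1 h2
    exact disj (X := (Y : Set G)) (y := y) (fun h hh => hY h hh) (i + 2) i 0 (by omega) (h • x)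
      (mem_fl.1 h1.2) (mem_fl.1 h2.2)

theorem dvd_edges (hY : ∀ h ∈ Y, h⁻¹ ∈ Y) (i : ℕ) :
    Y.card ∣ edges Y (fl (Y : Set G) y i) (fl (Y : Set G) y (i + 1)) := by
  induction i with
  | zero => rw [edges_zero]
  | succ i ih =>
    have h1 := edges_succ (y := y) Y hY i
    rw [edges_symm Y hY] at h1
    exact (Nat.dvd_add_right ih).1 (h1 ▸ Dvd.intro _ rfl)

/-- If the layer `i + 2` is not empty, then the layer `i + 1` has at least two elements. -/
theorem two_le (hY : ∀ h ∈ Y, h⁻¹ ∈ Y) (i : ℕ) (hne : (fl (Y : Set G) y (i + 2)).Nonempty) :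
    2 ≤ (fl (Y : Set G) y (i + 1)).card := by
  obtain ⟨c, hc⟩ := hne
  rw [mem_fl] at hc
  obtain ⟨h, hh, x, hx, rfl⟩ := exists_prev hc
  by_contra hlt
  have hpos : 0 < (fl (Y : Set G) y (i + 1)).card := Finset.card_pos.2 ⟨x, mem_fl.2 hx⟩
  have h1 : (fl (Y : Set G) y (i + 1)).card = 1 := by omega
  have h2 := edges_succ (y := y) Y hY i
  rw [h1, mul_one, edges_symm Y hY] at h2
  have h3 : 0 < edges Y (fl (Y : Set G) y i) (fl (Y : Set G) y (i + 1)) := by
    obtain ⟨k, hk, z, hz, hxz⟩ := exists_prev hx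
    apply Finset.card_pos.2
    refine ⟨(z, k), ?_⟩
    rw [Finset.mem_filter, Finset.mem_product]
    refine ⟨⟨mem_fl.2 hz, Finset.mem_coe.1 hk⟩, ?_⟩
    rw [mem_fl, ← hxz]
    exact hx
  have h4 : Y.card ≤ edges Y (fl (Y : Set G) y i) (fl (Y : Set G) y (i + 1)) :=
    Nat.le_of_dvd h3 (dvd_edges Y hY i)
  have h5 : 0 < edges Y (fl (Y : Set G) y (i + 1)) (fl (Y : Set G) y (i + 2)) := by
    apply Finset.card_pos.2
    refine ⟨(x, h), ?_⟩
    rw [Finset.mem_filter, Finset.mem_product]
    exact ⟨⟨mem_fl.2 hx, Finset.mem_coe.1 hh⟩, mem_fl.2 hc⟩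
  omega

theorem nonempty_of_le {i j : ℕ} (hij : i ≤ j) (hne : (fl X y j).Nonempty) :
    (fl X y i).Nonempty := by
  obtain ⟨k, rfl⟩ := Nat.exists_eq_add_of_le hij
  induction k with
  | zero => exact hne
  | succ k ih =>
    apply ih (by omega)
    obtain ⟨c, hc⟩ := hne
    rw [mem_fl] at hc
    obtain ⟨h, hh, x, hx, rfl⟩ := exists_prev (i := i + k) hc
    exact ⟨x, mem_fl.2 hx⟩

theorem sum_ge (hY : ∀ h ∈ Y, h⁻¹ ∈ Y) (N : ℕ) (hne : (fl (Y : Set G) y (N + 1)).Nonempty) :
    2 * (N + 1) ≤ ∑ i ∈ Finset.range (N + 2), (fl (Y : Set G) y i).card := by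
  have h : ∀ M ≤ N, 1 + 2 * M ≤ ∑ i ∈ Finset.range (M + 1), (fl (Y : Set G) y i).card := by
    intro M hM
    induction M with
    | zero =>
      rw [Finset.sum_range_one]
      have := Finset.card_pos.2 (nonempty_of_le (Nat.zero_le _) hne)
      omega
    | succ M ih =>
      rw [Finset.sum_range_succ]
      have h1 := ih (by omega)
      have h2 := two_le (y := y) Y hY M (nonempty_of_le (by omega) hne)
      omega
  rw [Finset.sum_range_succ]
  have h1 := h N le_rfl
  have h2 := Finset.card_pos.2 hne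
  omega

/-- The sum of the sizes of the layers of the same parity is at most the number of vertices. -/
theorem sum_parity_le (hX : ∀ h ∈ X, h⁻¹ ∈ X) (N : ℕ) :
    ∑ i ∈ Finset.range N, (fl X y i).card ≤ 2 * Fintype.card V := by
  have h : ∑ i ∈ Finset.range N, (fl X y i).card =
      ((Finset.range N).sigma fun i => fl X y i).card := by
    rw [Finset.card_sigma]
  rw [h, two_mul, ← Fintype.card_sum]
  let f : (Σ _ : ℕ, V) → V ⊕ V := fun p => if Even p.1 then Sum.inl p.2 else Sum.inr p.2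
  rw [← Finset.card_univ]
  refine Finset.card_le_card_of_injOn f (fun _ _ => Finset.mem_univ _) ?_
  rintro ⟨i, x⟩ hi ⟨j, x'⟩ hj hf
  rw [Finset.mem_coe, Finset.mem_sigma, mem_fl] at hi hj
  have key : ∀ i j : ℕ, (Even i ↔ Even j) → x ∈ layer X y i → x ∈ layer X y j → i = j := by
    intro i j hij h1 h2
    rcases lt_trichotomy i j with hlt | rfl | hlt
    · exfalso
      obtain ⟨k, hk⟩ : ∃ k, j = i + 2 * (k + 1) := by
        have : Even (j - i) := (Nat.even_sub hlt.le).2 hij.symm
        obtain ⟨m, hm⟩ := this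
        exact ⟨m - 1, by omega⟩
      exact disj hX j i k hk x h1 h2
    · rfl
    · exfalso
      obtain ⟨k, hk⟩ : ∃ k, i = j + 2 * (k + 1) := by
        have : Even (i - j) := (Nat.even_sub hlt.le).2 hij
        obtain ⟨m, hm⟩ := this
        exact ⟨m - 1, by omega⟩
      exact disj hX i j k hk x h2 h1
  by_cases hie : Even i
  · by_cases hje : Even j
    · simp only [f, if_pos hie, if_pos hje, Sum.inl.injEq] at hf
      subst hf
      obtain rfl := key i j (by simp [hie, hje]) hi.2 hj.2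
      rfl
    · simp [f, if_pos hie, if_neg hje] at hf
  · by_cases hje : Even j
    · simp [f, if_neg hie, if_pos hje] at hf
    · simp only [f, if_neg hie, if_neg hje, Sum.inr.injEq] at hf
      subst hf
      obtain rfl := key i j (by simp [hie, hje]) hi.2 hj.2
      rfl

/-- If the layers of different parities are disjoint, the sum of the sizes of all layers is at most
the number of vertices. -/
theorem sum_all_le (hX : ∀ h ∈ X, h⁻¹ ∈ X) (N : ℕ)
    (hd : ∀ (i j : ℕ) (x : V), x ∈ layer X y i → x ∈ layer X y j → (Even i ↔ Even j)) :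
    ∑ i ∈ Finset.range N, (fl X y i).card ≤ Fintype.card V := by
  have h : ∑ i ∈ Finset.range N, (fl X y i).card =
      ((Finset.range N).sigma fun i => fl X y i).card := by
    rw [Finset.card_sigma]
  rw [h, ← Finset.card_univ]
  refine Finset.card_le_card_of_injOn (fun p => p.2) (fun _ _ => Finset.mem_univ _) ?_
  rintro ⟨i, x⟩ hi ⟨j, x'⟩ hj hf
  rw [Finset.mem_coe, Finset.mem_sigma, mem_fl] at hi hj
  obtain rfl : x = x' := hf
  have hij := hd i j x hi.2 hj.2
  rcases lt_trichotomy i j with hlt | rfl | hlt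
  · exfalso
    obtain ⟨k, hk⟩ : ∃ k, j = i + 2 * (k + 1) := by
      have : Even (j - i) := (Nat.even_sub hlt.le).2 hij.symm
      obtain ⟨m, hm⟩ := this
      exact ⟨m - 1, by omega⟩
    exact disj hX j i k hk x hi.2 hj.2
  · rfl
  · exfalso
    obtain ⟨k, hk⟩ : ∃ k, i = j + 2 * (k + 1) := by
      have : Even (i - j) := (Nat.even_sub hlt.le).2 hij
      obtain ⟨m, hm⟩ := this
      exact ⟨m - 1, by omega⟩
    exact disj hX i j k hk x hj.2 hi.2

end Count

/-- The layers with index greater than the number of vertices are empty. -/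
theorem layer_eq_empty [Finite V] (Y : Finset G) (hY : ∀ h ∈ Y, h⁻¹ ∈ Y) (y : V) (i : ℕ)
    (hi : Nat.card V < i) : layer (Y : Set G) y i = ∅ := by
  have := Fintype.ofFinite V
  by_contra hne
  obtain ⟨c, hc⟩ := Set.nonempty_iff_ne_empty.2 hne
  obtain ⟨N, rfl⟩ : ∃ N, i = N + 1 := ⟨i - 1, by omega⟩
  have h1 := sum_ge (y := y) Y hY N ⟨c, mem_fl.2 hc⟩
  have h2 := sum_parity_le (X := (Y : Set G)) (y := y) (fun h hh => hY h hh) (N + 2)
  rw [Nat.card_eq_fintype_card] at hi
  omega

/-- If the layers of different parities are disjoint, the layers with index greater than half the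
number of vertices are empty. -/
theorem layer_eq_empty_of_bipartite [Finite V] (Y : Finset G) (hY : ∀ h ∈ Y, h⁻¹ ∈ Y) (y : V) (i : ℕ)
    (hd : ∀ (i j : ℕ) (x : V), x ∈ layer (Y : Set G) y i → x ∈ layer (Y : Set G) y j →
      (Even i ↔ Even j))
    (hi : Nat.card V < 2 * i) : layer (Y : Set G) y i = ∅ := by
  have := Fintype.ofFinite V
  by_contra hne
  obtain ⟨c, hc⟩ := Set.nonempty_iff_ne_empty.2 hne
  have hpos : 0 < Nat.card V := Nat.card_pos_iff.2 ⟨⟨y⟩, inferInstance⟩
  obtain ⟨N, rfl⟩ : ∃ N, i = N + 1 := ⟨i - 1, by omega⟩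
  have h1 := sum_ge (y := y) Y hY N ⟨c, mem_fl.2 hc⟩
  have h2 := sum_all_le (X := (Y : Set G)) (y := y) (fun h hh => hY h hh) (N + 2) hd
  rw [Nat.card_eq_fintype_card] at hi
  omega

end Pool.Agent.R651
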