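import Mathlib

/-!
# Quillen negations of classes of continuous maps: basic facts
-/

set_option autoImplicit false

open CategoryTheory Topology Set

universe u

namespace Pool.Agent.R651.QN

/-- Classes of continuous maps. -/
abbrev MP := MorphismProperty TopCat.{u}

/-! ### Lifting properties for continuous maps -/

theorem hlp {A B X Y : TopCat.{u}} {f : A ⟶ B} {g : X ⟶ Y} (H : HasLiftingProperty f g)
    (u : C(A, X)) (v : C(B, Y)) (huv : ∀ a, g (u a) = v (f a)) :
    ∃ h : C(B, X), (∀ a, h (f a) = u a) ∧ ∀ b, g (h b) = v b := by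
  have sq : CommSq (TopCat.ofHom u : A ⟶ X) f g (TopCat.ofHom v : B ⟶ Y) := ⟨by
    ext a
    exact huv a⟩
  have := H.sq_hasLift sq
  refine ⟨sq.lift.hom, fun a => ?_, fun b => ?_⟩
  · exact congrArg (fun k : A ⟶ X => k a) sq.fac_left
  · exact congrArg (fun k : B ⟶ Y => k b) sq.fac_right

theorem hlp_of {A B X Y : TopCat.{u}} {f : A ⟶ B} {g : X ⟶ Y}
    (H : ∀ (u : C(A, X)) (v : C(B, Y)), (∀ a, g (u a) = v (f a)) →
      ∃ h : C(B, X), (∀ a, h (f a) = u a) ∧ ∀ b, g (h b) = v b) : HasLiftingProperty f g := by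
  constructor
  intro u v sq
  obtain ⟨h, h1, h2⟩ := H u.hom v.hom (fun a => congrArg (fun k : A ⟶ Y => k a) sq.w)
  constructor
  constructor
  refine ⟨TopCat.ofHom h, ?_, ?_⟩
  · ext a
    exact h1 a
  · ext b
    exact h2 b

theorem isIso_of_self {A B : TopCat.{u}} (g : A ⟶ B) (h : HasLiftingProperty g g) : IsIso g := by
  have sq : CommSq (𝟙 A) g g (𝟙 B) := ⟨by simp⟩
  have := h.sq_hasLift sq
  exact ⟨sq.lift, sq.fac_left, sq.fac_right⟩

theorem isIso_of_inverse {A B : TopCat.{u}} (g : A ⟶ B) (k : C(B, A)) (h1 : ∀ a, k (g a) = a)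
    (h2 : ∀ b, g (k b) = b) : IsIso g := by
  refine ⟨TopCat.ofHom k, ?_, ?_⟩
  · ext a
    exact h1 a
  · ext b
    exact h2 b

/-! ### The classes of maps -/

/-- The surjective maps. -/
def Surj : MP.{u} := fun _ _ f => Function.Surjective f
/-- The injective maps. -/
def Inj : MP.{u} := fun _ _ f => Function.Injective f
/-- The maps whose domain has the induced topology. -/
def Init : MP.{u} := fun _ _ f => IsInducing f
/-- The embeddings. -/
def Emb : MP.{u} := fun _ _ f => IsEmbedding f
/-- The closed embeddings. -/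
def CE : MP.{u} := fun _ _ f => IsEmbedding f ∧ IsClosed (range f)
/-- The inducing maps with closed image. -/
def IC : MP.{u} := fun _ _ f => IsInducing f ∧ IsClosed (range f)
/-- The maps which have an empty domain or are isomorphisms. -/
def B0 : MP.{u} := fun X _ f => IsEmpty X ∨ IsIso f
/-- The maps which have an empty domain or are surjective and inducing. -/
def B1 : MP.{u} := fun X _ f => IsEmpty X ∨ (Function.Surjective f ∧ IsInducing f)
/-- The maps which have an empty domain or are surjective. -/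
def AE : MP.{u} := fun X _ f => IsEmpty X ∨ Function.Surjective f
/-- The maps with `T₀` fibres. -/
def T0F : MP.{u} := fun A _ f => ∀ x y : A, f x = f y → Inseparable x y → x = y
/-- The maps with `T₁` fibres. -/
def T1F : MP.{u} := fun A _ f => ∀ x y : A, f x = f y → x ⤳ y → x = y
/-- The isomorphisms. -/
abbrev Iso : MP.{u} := MorphismProperty.isomorphisms _

/-- All maps with an empty domain are in the class. -/
def HasE (C : MP.{u}) : Prop := ∀ (X Y : TopCat.{u}) (f : X ⟶ Y), IsEmpty X → C f

theorem cont_of_isEmpty {X Y : Type u} [TopologicalSpace X] [TopologicalSpace Y] [IsEmpty X]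
    (f : X → Y) : Continuous f := continuous_iff_continuousAt.2 fun x => isEmptyElim x

/-- If a map in `P^r` is not surjective, then all maps with empty domain are in `P^r`. -/
theorem hasE_of (P : MP.{u}) {A B : TopCat.{u}} (q : A ⟶ B) (hq : P.rlp q) (b : B)
    (hb : ∀ a, q a ≠ b) : HasE P.rlp := by
  intro X0 Y0 f0 hX0 X Y f hf
  apply hlp_of
  intro u v _
  have hX : ∀ x : X, False := fun x => hX0.false (u x)
  have hXe : IsEmpty X := ⟨hX⟩
  have hY : IsEmpty Y := by
    constructor
    intro y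
    obtain ⟨k, -, hk⟩ := hlp (hq f hf)
      ⟨fun x => (hX x).elim, cont_of_isEmpty _⟩
      (ContinuousMap.const Y b) (fun x => (hX x).elim)
    exact hb _ (hk y)
  exact ⟨⟨fun y => isEmptyElim y, cont_of_isEmpty _⟩,
    fun x => (hX x).elim, fun y => isEmptyElim y⟩

/-- The dichotomy for the classes `P^r`. -/
theorem dichotomy (P : MP.{u}) : HasE P.rlp ∨ P.rlp ≤ Surj := by
  by_cases h : P.rlp ≤ Surj
  · exact Or.inr h
  · left
    obtain ⟨A, B, q, hq, hns⟩ : ∃ (A B : TopCat.{u}) (q : A ⟶ B), P.rlp q ∧ ¬ Surj q := by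
      by_contra hcon
      push Not at hcon
      exact h fun A B q hq => hcon A B q hq
    have : ∃ b, ∀ a, q a ≠ b := by
      by_contra hcon
      push Not at hcon
      exact hns hcon
    obtain ⟨b, hb⟩ := this
    exact hasE_of P q hq b hb

theorem rlp_le_surj {C : MP.{u}} (h : HasE C) : C.rlp ≤ Surj := by
  intro A B g hg b
  obtain ⟨k, -, hk⟩ := hlp (hg (TopCat.ofHom ⟨PEmpty.elim, continuous_of_discreteTopology⟩ :
      TopCat.of PEmpty.{u + 1} ⟶ TopCat.of PUnit.{u + 1}) (h _ _ _ (inferInstanceAs (IsEmpty PEmpty))))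
    ⟨PEmpty.elim, continuous_of_discreteTopology⟩
    (ContinuousMap.const _ b) (fun x => x.elim)
  exact ⟨k PUnit.unit, hk PUnit.unit⟩

theorem rlp_le_B0 {C : MP.{u}} (h : HasE C) : C.rlp ≤ B0.rlp := by
  intro A B g hg X Y f hf
  rcases hf with hf | hf
  · exact hg f (h _ _ f hf)
  · infer_instance

theorem emb_le_rlp {C : MP.{u}} (h : C ≤ Surj) : Emb ≤ C.rlp := by
  intro A B g hg X Y f hf
  have hs : Function.Surjective f := h f hf
  have he : IsEmbedding g := hg
  apply hlp_of
  intro u v huv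
  choose s hs' using hs
  have hg' : ∀ y, g (u (s y)) = v y := fun y => by rw [huv, hs']
  refine ⟨⟨fun y => u (s y), ?_⟩, fun x => ?_, hg'⟩
  · rw [he.continuous_iff]
    have : (g ∘ fun y => u (s y)) = v := funext hg'
    rw [this]
    exact v.continuous
  · apply he.injective
    show g (u (s (f x))) = g (u x)
    rw [hg', huv]

theorem iso_le_rlp (C : MP.{u}) : Iso ≤ C.rlp := by
  intro A B g hg
  have : IsIso g := hg
  exact MorphismProperty.rlp_of_isIso C g

theorem iso_rlp : Iso.{u}.rlp = ⊤ := by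
  apply le_antisymm le_top
  intro A B g _ X Y f hf
  have : IsIso f := hf
  infer_instance

theorem rlp_eq_top {C : MP.{u}} (h : C ≤ Iso) : C.rlp = ⊤ := by
  apply le_antisymm le_top
  rw [← iso_rlp]
  exact MorphismProperty.antitone_rlp h

/-- The inclusion of the fibre over `y`. -/
theorem fibre_mem (P : MP.{u}) {X Y : TopCat.{u}} (f : X ⟶ Y) (hf : P.rlp f) (y : Y) :
    P.rlp (TopCat.ofHom (ContinuousMap.const _ PUnit.unit) :
      TopCat.of (f ⁻¹' {y} : Set X) ⟶ TopCat.of PUnit.{u + 1}) := by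
  intro A B p hp
  apply hlp_of
  intro u v _
  obtain ⟨s, hs1, hs2⟩ := hlp (hf p hp)
    ⟨fun a => (u a : (f ⁻¹' {y} : Set X)).1, continuous_subtype_val.comp u.continuous⟩
    (ContinuousMap.const _ y) (fun a => (u a : (f ⁻¹' {y} : Set X)).2)
  exact ⟨⟨fun b => ⟨s b, hs2 b⟩, s.continuous.subtype_mk _⟩, fun a => Subtype.ext (hs1 a),
    fun b => rfl⟩

theorem continuous_ite_spec {X Y : Type u} [TopologicalSpace X] [TopologicalSpace Y] (U : Set X)
    [∀ x, Decidable (x ∈ U)] (hU : IsOpen U) (y0 y1 : Y) (h : y0 ⤳ y1) :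
    Continuous fun x => if x ∈ U then y0 else y1 := by
  rw [continuous_def]
  intro O hO
  by_cases h1 : y1 ∈ O
  · have h0 : y0 ∈ O := h.mem_open hO h1
    convert isOpen_univ (X := X)
    ext x
    simp only [mem_preimage, mem_univ, iff_true]
    split_ifs <;> assumption
  · by_cases h0 : y0 ∈ O
    · convert hU
      ext x
      simp only [mem_preimage]
      constructor
      · intro hx
        by_contra hxU
        rw [if_neg hxU] at hx
        exact h1 hx
      · intro hx
        rw [if_pos hx]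
        exact h0
    · convert isOpen_empty (X := X)
      ext x
      simp only [mem_preimage, mem_empty_iff_false, iff_false]
      split_ifs <;> assumption

theorem continuous_ite_insep {X Y : Type u} [TopologicalSpace X] [TopologicalSpace Y] (U : Set X)
    [∀ x, Decidable (x ∈ U)] (y0 y1 : Y) (h : Inseparable y0 y1) :
    Continuous fun x => if x ∈ U then y0 else y1 := by
  rw [continuous_def]
  intro O hO
  have hiff := h.mem_open_iff hO
  by_cases h1 : y1 ∈ O
  · convert isOpen_univ (X := X)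
    ext x
    simp only [mem_preimage, mem_univ, iff_true]
    split_ifs
    · exact hiff.2 h1
    · exact h1
  · convert isOpen_empty (X := X)
    ext x
    simp only [mem_preimage, mem_empty_iff_false, iff_false]
    split_ifs
    · exact fun h => h1 (hiff.1 h)
    · exact h1

/-- If `P^r` contains a map which is not injective, then the maps in `P^rr` have `T₀` fibres. -/
theorem rlp_le_T0F (P : MP.{u}) (h : ¬ P.rlp ≤ Inj) : P.rlp.rlp ≤ T0F := by
  classical
  obtain ⟨X, Y, f, hf, x0, x1, h01, hne⟩ : ∃ (X Y : TopCat.{u}) (f : X ⟶ Y), P.rlp f ∧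
      ∃ x0 x1 : X, f x0 = f x1 ∧ x0 ≠ x1 := by
    by_contra hcon
    push Not at hcon
    exact h fun A B q hq x y hxy => hcon A B q hq x y hxy
  intro A B g hg a0 a1 hga hins
  obtain ⟨k, hk1, -⟩ := hlp (hg _ (fibre_mem P f hf (f x0)))
    ⟨fun z => if z ∈ ({⟨x0, rfl⟩} : Set (f ⁻¹' {f x0} : Set X)) then a0 else a1,
      continuous_ite_insep _ _ _ hins⟩ (ContinuousMap.const _ (g a1)) (by
        intro z
        show g (if _ then a0 else a1) = g a1
        split_ifs
        · exact hga
        · rfl)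
  have h0 : k PUnit.unit = a0 := (hk1 ⟨x0, rfl⟩).trans (if_pos rfl)
  have h1 : k PUnit.unit = a1 := (hk1 ⟨x1, h01.symm⟩).trans (if_neg (by
    intro h
    exact hne (congrArg Subtype.val h).symm))
  exact h0.symm.trans h1

/-- If `P^r` contains a map with a fibre which is not indiscrete, then the maps in `P^rr` have `T₁`
fibres. -/
theorem rlp_le_T1F (P : MP.{u}) {X Y : TopCat.{u}} (f : X ⟶ Y) (hf : P.rlp f) (x0 x1 : X)
    (h01 : f x0 = f x1) (U : Set X) (hU : IsOpen U) (h0 : x0 ∈ U) (h1 : x1 ∉ U) :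
    P.rlp.rlp ≤ T1F := by
  classical
  intro A B g hg a0 a1 hga hspec
  obtain ⟨k, hk1, -⟩ := hlp (hg _ (fibre_mem P f hf (f x0)))
    ⟨fun z => if z ∈ (Subtype.val ⁻¹' U : Set (f ⁻¹' {f x0} : Set X)) then a0 else a1,
      continuous_ite_spec _ (hU.preimage continuous_subtype_val) _ _ hspec⟩
    (ContinuousMap.const _ (g a1)) (by
        intro z
        show g (if _ then a0 else a1) = g a1
        split_ifs
        · exact hga
        · rfl)
  have h0 : k PUnit.unit = a0 := (hk1 ⟨x0, rfl⟩).trans (if_pos h0)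
  have h1 : k PUnit.unit = a1 := (hk1 ⟨x1, h01.symm⟩).trans (if_neg h1)
  exact h0.symm.trans h1

theorem inducing_of {X Y : TopCat.{u}} (f : X ⟶ Y)
    (h : ∀ U : Set X, IsOpen U → ∀ x ∈ U, ∃ O : Set Y, IsOpen O ∧ f x ∈ O ∧ f ⁻¹' O ⊆ U) :
    IsInducing f := by
  constructor
  refine le_antisymm (continuous_iff_le_induced.1 f.hom.continuous) ?_
  intro U hU
  refine (@isOpen_iff_forall_mem_open _ (TopologicalSpace.induced f inferInstance) U).2 ?_
  intro x hx
  obtain ⟨O, hO, hxO, hOU⟩ := h U hU x hx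
  exact ⟨f ⁻¹' O, hOU, isOpen_induced hO, hxO⟩

theorem exists_of_not_inducing {X Y : TopCat.{u}} (f : X ⟶ Y) (h : ¬ IsInducing f) :
    ∃ U : Set X, IsOpen U ∧ ∃ x ∈ U, ∀ O : Set Y, IsOpen O → f x ∈ O → ∃ z, f z ∈ O ∧ z ∉ U := by
  by_contra hcon
  push Not at hcon
  refine h (inducing_of f fun U hU x hx => ?_)
  obtain ⟨O, hO, hxO, hOU⟩ := hcon U hU x hx
  exact ⟨O, hO, hxO, fun z hz => hOU z hz⟩

/-- A space with at most one non-isolated point, with the filter `G` of punctured
neighbourhoods. -/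
def Zs (J : Type u) (_ : Filter J) : Type u := Option J

instance (J : Type u) (G : Filter J) : TopologicalSpace (Zs J G) where
  IsOpen W := (none : Option J) ∈ W → {j : J | (some j : Option J) ∈ W} ∈ G
  isOpen_univ _ := Filter.univ_mem
  isOpen_inter s t hs ht h := Filter.inter_mem (hs h.1) (ht h.2)
  isOpen_sUnion S hS h := by
    obtain ⟨s, hs, hx⟩ := h
    exact Filter.mem_of_superset (hS s hs hx) fun j hj => ⟨s, hs, hj⟩

/-- The same set with the discrete topology. -/
def Zd (J : Type u) : Type u := Option J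

instance (J : Type u) : TopologicalSpace (Zd J) := ⊥

instance (J : Type u) : DiscreteTopology (Zd J) := ⟨rfl⟩

theorem isOpen_Zs {J : Type u} {G : Filter J} (W : Set (Zs J G)) :
    IsOpen W ↔ ((none : Option J) ∈ W → {j : J | (some j : Option J) ∈ W} ∈ G) := Iff.rfl

/-- The continuous bijection. -/
def ζ (J : Type u) (G : Filter J) : TopCat.of (Zd J) ⟶ TopCat.of (Zs J G) :=
  TopCat.ofHom ⟨fun z => (z : Option J), continuous_of_discreteTopology⟩

/-- A map on `Option J`. -/
def optMap {J Y : Type u} (y : Y) (k : J → Y) : Option J → Y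
  | none => y
  | some j => k j

theorem continuous_Zs {J Y : Type u} [TopologicalSpace Y] (G : Filter J) (y : Y) (k : J → Y)
    (h : Filter.Tendsto k G (𝓝 y)) : Continuous (fun z : Zs J G => optMap y k z) := by
  rw [continuous_def]
  intro O hO
  rw [isOpen_Zs]
  intro hy
  exact h (hO.mem_nhds hy)

/-- If `P^r` contains a map which is not inducing, and moreover all its fibres are indiscrete or all
maps in `P` are surjective, then the maps in `P^rr` are inducing. -/
theorem rlp_le_init (P : MP.{u}) {X Y : TopCat.{u}} (f : X ⟶ Y) (hf : P.rlp f) (hni : ¬ IsInducing f)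
    (hc : (∀ (U : Set X) (x y : X), IsOpen U → f x = f y → x ∈ U → y ∈ U) ∨ P ≤ Surj) :
    P.rlp.rlp ≤ Init := by
  obtain ⟨U, hU, x0, hx0, hn⟩ := exists_of_not_inducing f hni
  intro A B g hg
  by_contra hgi
  obtain ⟨V, hV, a0, ha0, hm⟩ := exists_of_not_inducing g hgi
  let J := {x : X // x ∉ U} × {a : A // a ∉ V}
  let F1 : Filter {x : X // x ∉ U} := Filter.comap (fun x => f x.1) (𝓝 (f x0))
  let F2 : Filter {a : A // a ∉ V} := Filter.comap (fun a => g a.1) (𝓝 (g a0))
  have hF1 : F1.NeBot := by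
    rw [Filter.comap_neBot_iff]
    intro t ht
    obtain ⟨O, hOt, hO, hxO⟩ := mem_nhds_iff.1 ht
    obtain ⟨z, hz1, hz2⟩ := hn O hO hxO
    exact ⟨⟨z, hz2⟩, hOt hz1⟩
  have hF2 : F2.NeBot := by
    rw [Filter.comap_neBot_iff]
    intro t ht
    obtain ⟨O, hOt, hO, hxO⟩ := mem_nhds_iff.1 ht
    obtain ⟨z, hz1, hz2⟩ := hm O hO hxO
    exact ⟨⟨z, hz2⟩, hOt hz1⟩
  let G : Filter J := F1 ×ˢ F2
  have hG : G.NeBot := Filter.prod_neBot.2 ⟨hF1, hF2⟩
  have ht1 : Filter.Tendsto (fun j : J => f j.1.1) G (𝓝 (f x0)) :=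
    (Filter.tendsto_comap (f := fun x : {x : X // x ∉ U} => f x.1)).comp
      (Filter.tendsto_fst (f := F1) (g := F2))
  have ht2 : Filter.Tendsto (fun j : J => g j.2.1) G (𝓝 (g a0)) :=
    (Filter.tendsto_comap (f := fun a : {a : A // a ∉ V} => g a.1)).comp
      (Filter.tendsto_snd (f := F1) (g := F2))
  -- the map `ζ` is in the class
  have hζ : P.rlp (ζ J G) := by
    intro A' B' p hp
    apply hlp_of
    intro u' v' huv
    have huv' : ∀ a', (u' a' : Option J) = (v' (p a') : Option J) := huv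
    obtain ⟨s, hs1, hs2⟩ := hlp (hf p hp)
      ⟨fun a' => optMap x0 (fun j : J => j.1.1) (u' a' : Option J),
        (continuous_of_discreteTopology (α := Zd J)
          (f := optMap x0 (fun j : J => j.1.1))).comp u'.continuous⟩
      ⟨fun b' => optMap (f x0) (fun j : J => f j.1.1) (v' b' : Option J),
        (continuous_Zs G _ _ ht1).comp v'.continuous⟩ (by
        intro a'
        show f (optMap x0 (fun j : J => j.1.1) (u' a' : Option J)) =
          optMap (f x0) (fun j : J => f j.1.1) (v' (p a') : Option J)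
        rw [← huv' a']
        rcases (u' a' : Option J) with _ | j <;> rfl)
    have hs1' : ∀ a', s (p a') = optMap x0 (fun j : J => j.1.1) (u' a' : Option J) := hs1
    have hs2' : ∀ b', f (s b') = optMap (f x0) (fun j : J => f j.1.1) (v' b' : Option J) := hs2
    have key : ∀ b', (v' b' : Option J) = none ↔ s b' ∈ U := by
      intro b'
      rcases hc with hc | hc
      · have h2 := hs2' b'
        constructor
        · intro h
          rw [h] at h2
          exact hc U x0 (s b') hU h2.symm hx0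
        · intro h
          rcases h3 : (v' b' : Option J) with _ | j
          · rfl
          · exfalso
            rw [h3] at h2
            exact j.1.2 (hc U _ _ hU h2 h)
      · obtain ⟨a', rfl⟩ := (hc p hp : Function.Surjective p) b'
        rw [hs1' a', ← huv' a']
        rcases (u' a' : Option J) with _ | j
        · exact ⟨fun _ => hx0, fun _ => rfl⟩
        · exact ⟨fun h => (Option.some_ne_none _ h).elim, fun h => (j.1.2 h).elim⟩
    refine ⟨⟨fun b' => (v' b' : Option J), ?_⟩, fun a' => (huv' a').symm, fun b' => rfl⟩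
    refine (continuous_discrete_rng (β := Zd J)).2 fun z => ?_
    rcases z with _ | j
    · have : (fun b' => (v' b' : Option J)) ⁻¹' {none} = s ⁻¹' U := by
        ext b'
        exact key b'
      show IsOpen ((fun b' => (v' b' : Option J)) ⁻¹' {none})
      rw [this]
      exact hU.preimage s.continuous
    · show IsOpen (v' ⁻¹' ({(some j : Option J)} : Set (Zs J G)))
      refine IsOpen.preimage v'.continuous ?_
      rw [isOpen_Zs]
      intro h
      cases h
  obtain ⟨k, hk1, -⟩ := hlp (hg _ hζ)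
    ⟨fun z : Zd J => optMap a0 (fun j : J => j.2.1) (z : Option J),
      continuous_of_discreteTopology (α := Zd J)⟩
    ⟨fun z : Zs J G => optMap (g a0) (fun j : J => g j.2.1) (z : Option J),
      continuous_Zs G _ _ ht2⟩ (by
      intro z
      rcases (z : Option J) with _ | j <;> rfl)
  have h1 : IsOpen (k ⁻¹' V) := hV.preimage k.continuous
  have h2 := (isOpen_Zs _).1 h1 (by
    show k (none : Option J) ∈ V
    have : k (none : Option J) = a0 := hk1 (none : Option J)
    rw [this]
    exact ha0)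
  have h3 : {j : J | (some j : Option J) ∈ (k ⁻¹' V : Set (Zs J G))} = ∅ := by
    refine eq_empty_iff_forall_notMem.2 fun j hj => ?_
    have h4 : k (some j : Option J) = j.2.1 := hk1 (some j : Option J)
    have h5 : k (some j : Option J) ∈ V := hj
    rw [h4] at h5
    exact j.2.2 h5
  rw [h3] at h2
  exact hG.ne (Filter.empty_mem_iff_bot.1 h2)

/-! ### Inclusions between classes -/

theorem isIso_of_bij_inducing {X Y : TopCat.{u}} (g : X ⟶ Y) (h1 : Function.Injective g)
    (h2 : Function.Surjective g) (h3 : IsInducing g) : IsIso g := by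
  choose s hs using h2
  refine isIso_of_inverse g ⟨s, ?_⟩ (fun a => h1 (hs _)) hs
  rw [h3.continuous_iff]
  have : (g ∘ s) = id := funext hs
  rw [this]
  exact continuous_id

theorem init_surj_le {A B : TopCat.{u}} (g : A ⟶ B) (h1 : Init g) (h2 : Surj g) : Inj.rlp g := by
  classical
  intro X Y f hf
  have hf' : Function.Injective f := hf
  apply hlp_of
  intro u v huv
  choose s hs using (h2 : Function.Surjective g)
  have hex : ∀ y, ∃ a, g a = v y ∧ ∀ x, f x = y → u x = a := by
    intro y
    by_cases hy : ∃ x, f x = y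
    · obtain ⟨x, rfl⟩ := hy
      exact ⟨u x, huv x, fun x' hx' => congrArg u (hf' hx')⟩
    · exact ⟨s (v y), hs _, fun x hx => (hy ⟨x, hx⟩).elim⟩
  choose k hk1 hk2 using hex
  refine ⟨⟨k, ?_⟩, fun x => (hk2 _ x rfl).symm, hk1⟩
  rw [(h1 : IsInducing g).continuous_iff]
  have : (g ∘ k) = v := funext hk1
  rw [this]
  exact v.continuous

theorem injective_of_init_T0 {A B : TopCat.{u}} (g : A ⟶ B) (h1 : Init g) (h2 : T0F g) :
    Function.Injective g := by
  intro x y hxy
  refine h2 x y hxy ?_
  rw [← (h1 : IsInducing g).inseparable_iff, hxy]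

theorem iso_of {A B : TopCat.{u}} (g : A ⟶ B) (h1 : Init g) (h2 : Surj g) (h3 : T0F g) : Iso g :=
  isIso_of_bij_inducing g (injective_of_init_T0 g h1 h3) h2 h1

theorem emb_of {A B : TopCat.{u}} (g : A ⟶ B) (h1 : Init g) (h3 : T0F g) : Emb g :=
  ⟨h1, injective_of_init_T0 g h1 h3⟩

/-- The inclusion of the range. -/
def rangeIncl {X Y : TopCat.{u}} (f : X ⟶ Y) : TopCat.of (range f) ⟶ Y :=
  TopCat.ofHom ⟨Subtype.val, continuous_subtype_val⟩

theorem lift_of_T0F {A B X Y : TopCat.{u}} (g : A ⟶ B) (hg : T0F g) (f : X ⟶ Y) (hf : IsInducing f)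
    (H : HasLiftingProperty (rangeIncl f) g) : HasLiftingProperty f g := by
  apply hlp_of
  intro u v huv
  have huw : ∀ x x', f x = f x' → u x = u x' := by
    intro x x' h
    refine hg _ _ (by rw [huv, huv, h]) ?_
    refine Inseparable.map ?_ u.continuous
    rw [← hf.inseparable_iff, h]
  have hch : ∀ y : range f, ∃ x, f x = y.1 := fun y => y.2
  choose c hc using hch
  have hcu : ∀ x, u (c ⟨f x, x, rfl⟩) = u x := fun x => huw _ _ (hc _)
  have hcont : Continuous fun y : range f => u (c y) := by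
    rw [continuous_def]
    intro O hO
    obtain ⟨W, hW, hWO⟩ := hf.isOpen_iff.1 (hO.preimage u.continuous)
    have : (fun y : range f => u (c y)) ⁻¹' O = Subtype.val ⁻¹' W := by
      ext ⟨_, x, rfl⟩
      show u (c ⟨f x, x, rfl⟩) ∈ O ↔ f x ∈ W
      rw [hcu]
      exact (Set.ext_iff.1 hWO x).symm
    rw [this]
    exact hW.preimage continuous_subtype_val
  obtain ⟨k, hk1, hk2⟩ := hlp H ⟨fun y : range f => u (c y), hcont⟩ v (by
    intro y
    show g (u (c y)) = v y.1
    rw [huv, hc])
  refine ⟨k, fun x => ?_, hk2⟩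
  exact (hk1 ⟨f x, x, rfl⟩).trans (hcu x)

theorem emb_rangeIncl {X Y : TopCat.{u}} (f : X ⟶ Y) : IsEmbedding (rangeIncl f) :=
  IsEmbedding.subtypeVal

theorem range_rangeIncl {X Y : TopCat.{u}} (f : X ⟶ Y) : range (rangeIncl f) = range f :=
  Subtype.range_val

theorem isIso_rangeIncl {X Y : TopCat.{u}} (f : X ⟶ Y) (hf : Function.Surjective f) :
    IsIso (rangeIncl f) :=
  isIso_of_bij_inducing _ (emb_rangeIncl f).injective
    (range_eq_univ.1 ((range_rangeIncl f).trans hf.range_eq)) (emb_rangeIncl f).isInducing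

theorem init_rlp_of {A B : TopCat.{u}} (g : A ⟶ B) (h1 : Emb.rlp g) (h2 : T0F g) : Init.rlp g := by
  intro X Y f hf
  exact lift_of_T0F g h2 f hf (h1 _ (emb_rangeIncl f))

theorem ic_rlp_of {A B : TopCat.{u}} (g : A ⟶ B) (h1 : CE.rlp g) (h2 : T0F g) : IC.rlp g := by
  intro X Y f hf
  refine lift_of_T0F g h2 f hf.1 (h1 _ ⟨emb_rangeIncl f, ?_⟩)
  rw [range_rangeIncl]
  exact hf.2

theorem b1_rlp_of {A B : TopCat.{u}} (g : A ⟶ B) (h1 : B0.rlp g) (h2 : T0F g) : B1.rlp g := by
  intro X Y f hf
  rcases hf with hf | hf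
  · exact h1 f (Or.inl hf)
  · refine lift_of_T0F g h2 f hf.2 ?_
    have := isIso_rangeIncl f hf.1
    infer_instance

/-- Surjective inducing maps. -/
def SI : MP.{u} := fun _ _ f => Function.Surjective f ∧ IsInducing f

theorem si_rlp_of {A B : TopCat.{u}} (g : A ⟶ B) (h2 : T0F g) : SI.rlp g := by
  intro X Y f hf
  refine lift_of_T0F g h2 f hf.2 ?_
  have := isIso_rangeIncl f hf.1
  infer_instance

theorem init_le_rlp {C : MP.{u}} (h1 : C ≤ Surj) (h2 : C ≤ Inj) : Init ≤ C.rlp := by
  intro A B g hg X Y f hf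
  have hf1 : Function.Surjective f := h1 f hf
  have hf2 : Function.Injective f := h2 f hf
  apply hlp_of
  intro u v huv
  choose s hs using hf1
  refine ⟨⟨fun y => u (s y), ?_⟩, fun x => congrArg u (hf2 (hs _)), fun y => ?_⟩
  · rw [(hg : IsInducing g).continuous_iff]
    have : (g ∘ fun y => u (s y)) = v := funext fun y => by
      show g (u (s y)) = v y
      rw [huv, hs]
    rw [this]
    exact v.continuous
  · show g (u (s y)) = v y
    rw [huv, hs]

theorem emb_llp_le : Emb.llp ≤ Surj.{u} := by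
  intro X Y f hf y
  obtain ⟨k, -, hk⟩ := hlp (hf _ (emb_rangeIncl f))
    ⟨fun x => (⟨f x, x, rfl⟩ : range f), f.hom.continuous.subtype_mk _⟩ (ContinuousMap.id Y)
    (fun x => rfl)
  have h1 : (k y : range f).1 = y := hk y
  rw [← h1]
  exact (k y : range f).2

end Pool.Agent.R651.QN
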