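import Pool.Agent.R651.QNBase

/-!
# Quillen negations of classes of continuous maps: two constructions of spaces
-/

set_option autoImplicit false

open CategoryTheory Topology Set

universe u

namespace Pool.Agent.R651.QN

/-! ### First construction -/

/-- The points over `Y`: a copy of `X` and for each `y` the points `(y, n)` and `(y, none)`. -/
inductive W8 {X Y : TopCat.{u}} (_f : X ⟶ Y) (_v0 : Y) : Type u
  | w0 (x : X) : W8 _f _v0
  | w1 (y : Y) (o : Option ℕ) : W8 _f _v0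

section W8

open W8

variable {X Y : TopCat.{u}} (f : X ⟶ Y) (v0 : Y)

/-- All points over `y` are in `W`. -/
def Full (y : Y) (W : Set (W8 f v0)) : Prop :=
  (∀ x : X, f x = y → w0 x ∈ W) ∧ ∀ o, w1 y o ∈ W

theorem Full.mono {y : Y} {W W' : Set (W8 f v0)} (h : Full f v0 y W) (hW : W ⊆ W') :
    Full f v0 y W' := ⟨fun x hx => hW (h.1 x hx), fun o => hW (h.2 o)⟩

instance : TopologicalSpace (W8 f v0) where
  IsOpen W := IsOpen (w0 ⁻¹' W : Set X) ∧
    (∀ y, y ≠ v0 → w1 y none ∈ W → ∃ O : Set Y, IsOpen O ∧ y ∈ O ∧ ∀ y' ∈ O, Full f v0 y' W) ∧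
    (w1 v0 none ∈ W → Full f v0 v0 W ∧
      ∃ O : Set Y, IsOpen O ∧ v0 ∈ O ∧ ∀ y ∈ O, y ≠ v0 → {n : ℕ | w1 y (some n) ∉ W}.Finite)
  isOpen_univ := by
    refine ⟨isOpen_univ, fun y _ _ => ⟨univ, isOpen_univ, mem_univ _, fun y' _ =>
      ⟨fun _ _ => mem_univ _, fun _ => mem_univ _⟩⟩, fun _ => ⟨⟨fun _ _ => mem_univ _,
      fun _ => mem_univ _⟩, univ, isOpen_univ, mem_univ _, fun y _ _ => ?_⟩⟩
    convert Set.finite_empty
    ext n
    simp
  isOpen_inter s t hs ht := by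
    obtain ⟨hs0, hs1, hs2⟩ := hs
    obtain ⟨ht0, ht1, ht2⟩ := ht
    refine ⟨hs0.inter ht0, ?_, ?_⟩
    · rintro y hy ⟨h1, h2⟩
      obtain ⟨O, hO, hyO, hOf⟩ := hs1 y hy h1
      obtain ⟨O', hO', hyO', hOf'⟩ := ht1 y hy h2
      exact ⟨O ∩ O', hO.inter hO', ⟨hyO, hyO'⟩, fun y' hy' =>
        ⟨fun x hx => ⟨(hOf y' hy'.1).1 x hx, (hOf' y' hy'.2).1 x hx⟩,
          fun o => ⟨(hOf y' hy'.1).2 o, (hOf' y' hy'.2).2 o⟩⟩⟩
    · rintro ⟨h1, h2⟩
      obtain ⟨hf1, O, hO, hyO, hOf⟩ := hs2 h1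
      obtain ⟨hf2, O', hO', hyO', hOf'⟩ := ht2 h2
      refine ⟨⟨fun x hx => ⟨hf1.1 x hx, hf2.1 x hx⟩, fun o => ⟨hf1.2 o, hf2.2 o⟩⟩, O ∩ O',
        hO.inter hO', ⟨hyO, hyO'⟩, fun y hy hne => ?_⟩
      refine ((hOf y hy.1 hne).union (hOf' y hy.2 hne)).subset ?_
      intro n hn
      by_contra hcon
      apply hn
      constructor
      · by_contra h
        exact hcon (Or.inl h)
      · by_contra h
        exact hcon (Or.inr h)
  isOpen_sUnion S hS := by
    refine ⟨?_, ?_, ?_⟩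
    · have : (w0 ⁻¹' (⋃₀ S) : Set X) = ⋃ s ∈ S, w0 ⁻¹' s := by
        ext x
        simp
      rw [this]
      exact isOpen_biUnion fun s hs => (hS s hs).1
    · rintro y hy ⟨s, hs, h⟩
      obtain ⟨O, hO, hyO, hOf⟩ := (hS s hs).2.1 y hy h
      exact ⟨O, hO, hyO, fun y' hy' => (hOf y' hy').mono f v0 (subset_sUnion_of_mem hs)⟩
    · rintro ⟨s, hs, h⟩
      obtain ⟨hf1, O, hO, hyO, hOf⟩ := (hS s hs).2.2 h
      refine ⟨hf1.mono f v0 (subset_sUnion_of_mem hs), O, hO, hyO, fun y hy hne => ?_⟩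
      exact (hOf y hy hne).subset fun n hn h => hn (subset_sUnion_of_mem hs h)

theorem isOpen_W8 (W : Set (W8 f v0)) : IsOpen W ↔ IsOpen (w0 ⁻¹' W : Set X) ∧
    (∀ y, y ≠ v0 → w1 y none ∈ W → ∃ O : Set Y, IsOpen O ∧ y ∈ O ∧ ∀ y' ∈ O, Full f v0 y' W) ∧
    (w1 v0 none ∈ W → Full f v0 v0 W ∧
      ∃ O : Set Y, IsOpen O ∧ v0 ∈ O ∧ ∀ y ∈ O, y ≠ v0 →
        {n : ℕ | w1 y (some n) ∉ W}.Finite) := Iff.rfl

/-- The projection to `Y`. -/
def q8 : W8 f v0 → Y
  | w0 x => f x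
  | w1 y _ => y

theorem full_preimage (O : Set Y) (y : Y) (hy : y ∈ O) : Full f v0 y (q8 f v0 ⁻¹' O) :=
  ⟨fun x hx => by
    show f x ∈ O
    rw [hx]
    exact hy, fun _ => hy⟩

theorem continuous_q8 : Continuous (q8 f v0) := by
  rw [continuous_def]
  intro O hO
  rw [isOpen_W8]
  refine ⟨hO.preimage f.hom.continuous, fun y _ hy => ⟨O, hO, hy, fun y' hy' =>
    full_preimage f v0 O y' hy'⟩, fun hy => ⟨full_preimage f v0 O v0 hy, O, hO, hy,
    fun y hy' _ => ?_⟩⟩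
  convert Set.finite_empty
  ext n
  simp only [mem_empty_iff_false, iff_false]
  intro hn
  exact hn hy'

/-- The projection as a map in the category. -/
def Q8 : TopCat.of (W8 f v0) ⟶ Y := TopCat.ofHom ⟨q8 f v0, continuous_q8 f v0⟩

theorem continuous_w0 : Continuous (w0 : X → W8 f v0) := by
  rw [continuous_def]
  intro W hW
  exact ((isOpen_W8 f v0 W).1 hW).1

theorem spec8 (z : W8 f v0) : z ⤳ w1 (q8 f v0 z) none := by
  rw [specializes_iff_forall_open]
  intro W hW hz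
  have hW' := (isOpen_W8 f v0 W).1 hW
  have hfull : Full f v0 (q8 f v0 z) W := by
    by_cases h : q8 f v0 z = v0
    · rw [h] at hz ⊢
      exact (hW'.2.2 hz).1
    · obtain ⟨O, hO, hyO, hOf⟩ := hW'.2.1 _ h hz
      exact hOf _ hyO
  rcases z with x | ⟨y, o⟩
  · exact hfull.1 x rfl
  · exact hfull.2 o

theorem Q8_mem : T1F.llp (Q8 f v0) := by
  intro A B g hg
  apply hlp_of
  intro u v huv
  have huv' : ∀ z : W8 f v0, g (u z) = v (q8 f v0 z) := huv
  have hu : ∀ z : W8 f v0, u z = u (w1 (q8 f v0 z) none) := by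
    intro z
    refine hg _ _ ?_ ((spec8 f v0 z).map u.continuous)
    rw [huv' z, huv' (w1 (q8 f v0 z) none)]
    rfl
  refine ⟨⟨fun y => u (w1 y none), ?_⟩, fun z => (hu z).symm, fun y => huv' (w1 y none)⟩
  rw [continuous_def]
  intro U hU
  set O : Set Y := (fun y => u (w1 y none)) ⁻¹' U with hOdef
  have hpre : ∀ z : W8 f v0, z ∈ (u ⁻¹' U : Set (W8 f v0)) ↔ q8 f v0 z ∈ O := by
    intro z
    show u z ∈ U ↔ u (w1 (q8 f v0 z) none) ∈ U
    rw [← hu z]
  have hopen := (isOpen_W8 f v0 _).1 (hU.preimage u.continuous)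
  rw [isOpen_iff_forall_mem_open]
  intro y hy
  by_cases hyv : y = v0
  · obtain ⟨-, O', hO', hyO', hf⟩ := hopen.2.2 ((hpre (w1 v0 none)).2 (by
      show v0 ∈ O
      rw [← hyv]
      exact hy))
    refine ⟨O', ?_, hO', hyv ▸ hyO'⟩
    intro y' hy'
    by_cases h : y' = v0
    · rw [h, ← hyv]
      exact hy
    · obtain ⟨n, hn⟩ := (hf y' hy' h).exists_notMem
      have hn' : (w1 y' (some n) : W8 f v0) ∈ (u ⁻¹' U : Set (W8 f v0)) := by
        by_contra hcon
        exact hn hcon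
      exact (hpre _).1 hn'
  · obtain ⟨O', hO', hyO', hf⟩ := hopen.2.1 y hyv ((hpre (w1 y none)).2 hy)
    exact ⟨O', fun y' hy' => (hpre _).1 ((hf y' hy').2 none), hO', hyO'⟩

/-- The structure of the maps in `(T1F)^ll`. -/
theorem structure8 (hf : T1F.llp.llp f) : Function.Injective f ∧ IsOpenMap f ∧
    (v0 ∉ range f → IsOpen ({v0} : Set Y)) := by
  obtain ⟨k, hk1, hk2⟩ := hlp (hf _ (Q8_mem f v0)) ⟨_, continuous_w0 f v0⟩ (ContinuousMap.id Y)
    (fun x => rfl)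
  have hk1' : ∀ x, k (f x) = w0 x := hk1
  have hk2' : ∀ y, q8 f v0 (k y) = y := hk2
  refine ⟨?_, ?_, ?_⟩
  · intro x x' h
    have h1 := hk1' x
    rw [h, hk1' x'] at h1
    exact (W8.w0.inj h1).symm
  · intro U hU
    have hopen : IsOpen ({z | ∃ x ∈ U, z = w0 x} : Set (W8 f v0)) := by
      rw [isOpen_W8]
      refine ⟨?_, ?_, ?_⟩
      · convert hU
        ext x
        constructor
        · rintro ⟨x', hx', h⟩
          exact (W8.w0.inj h) ▸ hx'
        · intro hx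
          exact ⟨x, hx, rfl⟩
      · rintro y - ⟨x, -, h⟩
        cases h
      · rintro ⟨x, -, h⟩
        cases h
    convert hopen.preimage k.continuous
    ext y
    constructor
    · rintro ⟨x, hx, rfl⟩
      exact ⟨x, hx, hk1' x⟩
    · rintro ⟨x, hx, h⟩
      refine ⟨x, hx, ?_⟩
      have h2 := hk2' y
      have h' : k y = w0 x := h
      rw [h'] at h2
      exact h2
  · intro hv0
    let W : Set (W8 f v0) := {z | (∃ o, z = w1 v0 o) ∨
      ∃ (v : Y) (n : ℕ), v ≠ v0 ∧ z = w1 v (some n) ∧ k v ≠ z}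
    have hopen : IsOpen W := by
      rw [isOpen_W8]
      refine ⟨?_, ?_, ?_⟩
      · convert isOpen_empty (X := X)
        refine eq_empty_iff_forall_notMem.2 ?_
        rintro x (⟨o, h⟩ | ⟨v, n, -, h, -⟩) <;> cases h
      · rintro y hy (⟨o, h⟩ | ⟨v, n, -, h, -⟩)
        · exact (hy (W8.w1.inj h).1).elim
        · cases (W8.w1.inj h).2
      · intro _
        refine ⟨⟨fun x hx => (hv0 ⟨x, hx⟩).elim, fun o => Or.inl ⟨o, rfl⟩⟩, univ, isOpen_univ,
          mem_univ _, fun y _ hne => ?_⟩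
        refine Set.Subsingleton.finite ?_
        intro n hn n' hn'
        have h1 : ∀ m : ℕ, w1 y (some m) ∉ W → k y = w1 y (some m) := by
          intro m hm
          by_contra hcon
          exact hm (Or.inr ⟨y, m, hne, rfl, hcon⟩)
        have h2 := (h1 n hn).symm.trans (h1 n' hn')
        exact Option.some.inj (W8.w1.inj h2).2
    convert hopen.preimage k.continuous
    ext y
    constructor
    · rintro rfl
      left
      rcases hz : k y with x | ⟨y', o⟩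
      · have h2 := hk2' y
        rw [hz] at h2
        exact (hv0 ⟨x, h2⟩).elim
      · have h2 := hk2' y
        rw [hz] at h2
        have h3 : y' = y := h2
        exact ⟨o, by rw [h3]⟩
    · rintro (⟨o, h⟩ | ⟨v, n, -, h, h'⟩)
      · have h2 := hk2' y
        rw [h] at h2
        exact h2.symm
      · exfalso
        have h2 := hk2' y
        rw [h] at h2
        have h3 : v = y := h2
        rw [h3] at h'
        exact h' rfl

end W8

theorem T1F_llp_llp_le : T1F.llp.llp ≤ Surj.{u}.llp := by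
  classical
  intro X Y f hf A B g hg
  apply hlp_of
  intro u v huv
  choose s hs using (hg : Function.Surjective g)
  have hstr := fun y => structure8 f y hf
  have hinj : Function.Injective f := by
    intro x x' h
    exact (hstr (f x)).1 h
  have hex : ∀ y, ∃ a, g a = v y ∧ ∀ x, f x = y → u x = a := by
    intro y
    by_cases hy : ∃ x, f x = y
    · obtain ⟨x, rfl⟩ := hy
      exact ⟨u x, huv x, fun x' hx' => congrArg u (hinj hx')⟩
    · exact ⟨s (v y), hs _, fun x hx => (hy ⟨x, hx⟩).elim⟩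
  choose k hk1 hk2 using hex
  refine ⟨⟨k, ?_⟩, fun x => (hk2 _ x rfl).symm, hk1⟩
  rw [continuous_def]
  intro U hU
  rw [isOpen_iff_forall_mem_open]
  intro y hy
  by_cases hyr : y ∈ range f
  · obtain ⟨x, rfl⟩ := hyr
    refine ⟨f '' (u ⁻¹' U), ?_, (hstr (f x)).2.1 _ (hU.preimage u.continuous), ⟨x, ?_, rfl⟩⟩
    · rintro _ ⟨x', hx', rfl⟩
      show k (f x') ∈ U
      rw [← hk2 _ x' rfl]
      exact hx'
    · show u x ∈ U
      rw [hk2 _ x rfl]
      exact hy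
  · exact ⟨{y}, singleton_subset_iff.2 hy, (hstr y).2.2 hyr, rfl⟩

/-! ### Second construction -/

/-- The points of the second construction: a copy of `X`, copies of `Y` for `k ∈ K`, and copies of
`X` for `(k, e) ∈ K × E`. -/
def Res {X Y : TopCat.{u}} (_ι : X ⟶ Y) (K E : Type u) (_F : Filter E) : Type u :=
  X ⊕ ((Y × K) ⊕ (X × K × E))

section Res

variable {X Y : TopCat.{u}} (ι : X ⟶ Y) (K E : Type u) (F : Filter E)

/-- The points of the first kind. -/
def r0 (x : X) : Res ι K E F := (Sum.inl x : X ⊕ ((Y × K) ⊕ (X × K × E)))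
/-- The points of the second kind. -/
def r1 (y : Y) (k : K) : Res ι K E F := (Sum.inr (Sum.inl (y, k)) : X ⊕ ((Y × K) ⊕ (X × K × E)))
/-- The points of the third kind. -/
def r2 (x : X) (k : K) (e : E) : Res ι K E F :=
  (Sum.inr (Sum.inr (x, k, e)) : X ⊕ ((Y × K) ⊕ (X × K × E)))

instance : TopologicalSpace (Res ι K E F) where
  IsOpen W :=
    (∀ x, r0 ι K E F x ∈ W → ∃ O : Set Y, IsOpen O ∧ ι x ∈ O ∧ (∀ x', ι x' ∈ O → r0 ι K E F x' ∈ W) ∧
      ∃ T : Set K, T.Finite ∧ ∀ k ∉ T, (∀ y ∈ O, r1 ι K E F y k ∈ W) ∧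
        ∀ x', ι x' ∈ O → ∀ e, r2 ι K E F x' k e ∈ W) ∧
    (∀ y k, r1 ι K E F y k ∈ W → ∃ O : Set Y, IsOpen O ∧ y ∈ O ∧ (∀ y' ∈ O, r1 ι K E F y' k ∈ W) ∧
      ∃ G ∈ F, ∀ x', ι x' ∈ O → ∀ e ∈ G, r2 ι K E F x' k e ∈ W) ∧
    (∀ x k e, r2 ι K E F x k e ∈ W → ∃ O : Set Y, IsOpen O ∧ ι x ∈ O ∧
      ∀ x', ι x' ∈ O → r2 ι K E F x' k e ∈ W)
  isOpen_univ := ⟨fun x _ => ⟨univ, isOpen_univ, mem_univ _, fun _ _ => mem_univ _, ∅,
      Set.finite_empty, fun _ _ => ⟨fun _ _ => mem_univ _, fun _ _ _ => mem_univ _⟩⟩,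
    fun y k _ => ⟨univ, isOpen_univ, mem_univ _, fun _ _ => mem_univ _, univ, Filter.univ_mem,
      fun _ _ _ _ => mem_univ _⟩,
    fun x k e _ => ⟨univ, isOpen_univ, mem_univ _, fun _ _ => mem_univ _⟩⟩
  isOpen_inter s t hs ht := by
    obtain ⟨hs0, hs1, hs2⟩ := hs
    obtain ⟨ht0, ht1, ht2⟩ := ht
    refine ⟨?_, ?_, ?_⟩
    · rintro x ⟨h1, h2⟩
      obtain ⟨O, hO, hxO, ha, T, hT, hb⟩ := hs0 x h1
      obtain ⟨O', hO', hxO', ha', T', hT', hb'⟩ := ht0 x h2
      refine ⟨O ∩ O', hO.inter hO', ⟨hxO, hxO'⟩, fun x' hx' => ⟨ha x' hx'.1, ha' x' hx'.2⟩,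
        T ∪ T', hT.union hT', fun k hk => ?_⟩
      have hk1 : k ∉ T := fun h => hk (Or.inl h)
      have hk2 : k ∉ T' := fun h => hk (Or.inr h)
      exact ⟨fun y hy => ⟨(hb k hk1).1 y hy.1, (hb' k hk2).1 y hy.2⟩,
        fun x' hx' e => ⟨(hb k hk1).2 x' hx'.1 e, (hb' k hk2).2 x' hx'.2 e⟩⟩
    · rintro y k ⟨h1, h2⟩
      obtain ⟨O, hO, hyO, ha, G, hG, hb⟩ := hs1 y k h1
      obtain ⟨O', hO', hyO', ha', G', hG', hb'⟩ := ht1 y k h2
      exact ⟨O ∩ O', hO.inter hO', ⟨hyO, hyO'⟩, fun y' hy' => ⟨ha y' hy'.1, ha' y' hy'.2⟩,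
        G ∩ G', Filter.inter_mem hG hG', fun x' hx' e he =>
          ⟨hb x' hx'.1 e he.1, hb' x' hx'.2 e he.2⟩⟩
    · rintro x k e ⟨h1, h2⟩
      obtain ⟨O, hO, hxO, ha⟩ := hs2 x k e h1
      obtain ⟨O', hO', hxO', ha'⟩ := ht2 x k e h2
      exact ⟨O ∩ O', hO.inter hO', ⟨hxO, hxO'⟩, fun x' hx' => ⟨ha x' hx'.1, ha' x' hx'.2⟩⟩
  isOpen_sUnion S hS := by
    refine ⟨?_, ?_, ?_⟩
    · rintro x ⟨s, hs, h⟩
      have hsub := subset_sUnion_of_mem hs
      obtain ⟨O, hO, hxO, ha, T, hT, hb⟩ := (hS s hs).1 x h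
      exact ⟨O, hO, hxO, fun x' hx' => hsub (ha x' hx'), T, hT, fun k hk =>
        ⟨fun y hy => hsub ((hb k hk).1 y hy), fun x' hx' e => hsub ((hb k hk).2 x' hx' e)⟩⟩
    · rintro y k ⟨s, hs, h⟩
      have hsub := subset_sUnion_of_mem hs
      obtain ⟨O, hO, hyO, ha, G, hG, hb⟩ := (hS s hs).2.1 y k h
      exact ⟨O, hO, hyO, fun y' hy' => hsub (ha y' hy'), G, hG, fun x' hx' e he =>
        hsub (hb x' hx' e he)⟩
    · rintro x k e ⟨s, hs, h⟩
      obtain ⟨O, hO, hxO, ha⟩ := (hS s hs).2.2 x k e h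
      exact ⟨O, hO, hxO, fun x' hx' => subset_sUnion_of_mem hs (ha x' hx')⟩

theorem isOpen_Res (W : Set (Res ι K E F)) : IsOpen W ↔
    (∀ x, r0 ι K E F x ∈ W → ∃ O : Set Y, IsOpen O ∧ ι x ∈ O ∧ (∀ x', ι x' ∈ O → r0 ι K E F x' ∈ W) ∧
      ∃ T : Set K, T.Finite ∧ ∀ k ∉ T, (∀ y ∈ O, r1 ι K E F y k ∈ W) ∧
        ∀ x', ι x' ∈ O → ∀ e, r2 ι K E F x' k e ∈ W) ∧
    (∀ y k, r1 ι K E F y k ∈ W → ∃ O : Set Y, IsOpen O ∧ y ∈ O ∧ (∀ y' ∈ O, r1 ι K E F y' k ∈ W) ∧
      ∃ G ∈ F, ∀ x', ι x' ∈ O → ∀ e ∈ G, r2 ι K E F x' k e ∈ W) ∧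
    (∀ x k e, r2 ι K E F x k e ∈ W → ∃ O : Set Y, IsOpen O ∧ ι x ∈ O ∧
      ∀ x', ι x' ∈ O → r2 ι K E F x' k e ∈ W) := Iff.rfl

/-- The projection to `Y`. -/
def πR : Res ι K E F → Y
  | Sum.inl x => ι x
  | Sum.inr (Sum.inl (y, _)) => y
  | Sum.inr (Sum.inr (x, _, _)) => ι x

theorem continuous_πR : Continuous (πR ι K E F) := by
  rw [continuous_def]
  intro O hO
  rw [isOpen_Res]
  exact ⟨fun x hx => ⟨O, hO, hx, fun _ h => h, ∅, Set.finite_empty,
      fun _ _ => ⟨fun _ h => h, fun _ h _ => h⟩⟩,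
    fun y k hy => ⟨O, hO, hy, fun _ h => h, univ, Filter.univ_mem, fun _ h _ _ => h⟩,
    fun x k e hx => ⟨O, hO, hx, fun _ h => h⟩⟩

/-- The points of the first and third kind. -/
def RX {X Y : TopCat.{u}} (_ι : X ⟶ Y) (K E : Type u) (_F : Filter E) : Type u :=
  X ⊕ (X × K × E)

/-- The inclusion. -/
def jR : RX ι K E F → Res ι K E F
  | Sum.inl x => r0 ι K E F x
  | Sum.inr (x, k, e) => r2 ι K E F x k e

instance : TopologicalSpace (RX ι K E F) := TopologicalSpace.induced (jR ι K E F) inferInstance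

theorem jR_inducing : IsInducing (jR ι K E F) := ⟨rfl⟩

theorem jR_injective : Function.Injective (jR ι K E F) := by
  rintro (x | ⟨x, k, e⟩) (x' | ⟨x', k', e'⟩) h
  · have := Sum.inl.inj h
    rw [this]
  · cases h
  · cases h
  · have := Sum.inr.inj (Sum.inr.inj h)
    rw [this]

/-- The inclusion as a map in the category. -/
def JR : TopCat.of (RX ι K E F) ⟶ TopCat.of (Res ι K E F) :=
  TopCat.ofHom ⟨jR ι K E F, (jR_inducing ι K E F).continuous⟩

theorem JR_mem (P : MP.{u}) {Xf Yf : TopCat.{u}} (f : Xf ⟶ Yf) (hf : P.rlp f) (e0 : Xf) (y0 : Yf)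
    (hy0 : y0 ∉ range f) (θ : E → Xf) (hθ : Filter.Tendsto (fun e => f (θ e)) F (𝓝 y0)) :
    P.rlp (JR ι K E F) := by
  classical
  intro A' B' p hp
  apply hlp_of
  intro u' v' huv
  have huv' : ∀ a', jR ι K E F (u' a') = v' (p a') := huv
  have hrange : ∀ b', ∃ z, jR ι K E F z = v' b' := by
    intro b'
    by_contra hcon
    obtain ⟨y, k, hyk⟩ : ∃ y k, v' b' = r1 ι K E F y k := by
      rcases h : (v' b' : X ⊕ ((Y × K) ⊕ (X × K × E))) with x | (⟨y, k⟩ | ⟨x, k, e⟩)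
      · exact (hcon ⟨(Sum.inl x : X ⊕ (X × K × E)), h.symm⟩).elim
      · exact ⟨y, k, rfl⟩
      · exact (hcon ⟨(Sum.inr (x, k, e) : X ⊕ (X × K × E)), h.symm⟩).elim
    let Φ : Res ι K E F → Yf := fun z =>
      match z with
      | Sum.inl _ => f e0
      | Sum.inr (Sum.inl (_, k')) => if k' = k then y0 else f e0
      | Sum.inr (Sum.inr (_, k', e)) => if k' = k then f (θ e) else f e0
    let Ψ : RX ι K E F → Xf := fun z =>
      match z with
      | Sum.inl _ => e0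
      | Sum.inr (_, k', e) => if k' = k then θ e else e0
    have hΦ0 : ∀ x, Φ (r0 ι K E F x) = f e0 := fun _ => rfl
    have hΦ1 : ∀ y' k', Φ (r1 ι K E F y' k') = if k' = k then y0 else f e0 := fun _ _ => rfl
    have hΦ2 : ∀ x k' e, Φ (r2 ι K E F x k' e) = if k' = k then f (θ e) else f e0 :=
      fun _ _ _ => rfl
    have hΦ : Continuous Φ := by
      rw [continuous_def]
      intro O hO
      rw [isOpen_Res]
      refine ⟨?_, ?_, ?_⟩
      · intro x hx
        refine ⟨univ, isOpen_univ, mem_univ _, fun _ _ => hx, {k}, Set.finite_singleton k,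
          fun k' hk' => ⟨fun y' _ => ?_, fun x' _ e => ?_⟩⟩
        · show Φ (r1 ι K E F y' k') ∈ O
          rw [hΦ1, if_neg (show ¬ k' = k from hk')]
          exact hx
        · show Φ (r2 ι K E F x' k' e) ∈ O
          rw [hΦ2, if_neg (show ¬ k' = k from hk')]
          exact hx
      · intro y' k' h
        have h' : (if k' = k then y0 else f e0) ∈ O := h
        refine ⟨univ, isOpen_univ, mem_univ _, fun _ _ => h, ?_⟩
        by_cases hk : k' = k
        · rw [if_pos hk] at h'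
          refine ⟨_, hθ (hO.mem_nhds h'), fun x' _ e he => ?_⟩
          show Φ (r2 ι K E F x' k' e) ∈ O
          rw [hΦ2, if_pos hk]
          exact he
        · rw [if_neg hk] at h'
          refine ⟨univ, Filter.univ_mem, fun x' _ e _ => ?_⟩
          show Φ (r2 ι K E F x' k' e) ∈ O
          rw [hΦ2, if_neg hk]
          exact h'
      · intro x k' e h
        exact ⟨univ, isOpen_univ, mem_univ _, fun _ _ => h⟩
    have hΨ : Continuous Ψ := by
      rw [continuous_def]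
      intro U hU
      let W : Set (Res ι K E F) := fun z =>
        match z with
        | Sum.inl _ => e0 ∈ U
        | Sum.inr (Sum.inl (_, k')) => k' ≠ k ∧ e0 ∈ U
        | Sum.inr (Sum.inr (_, k', e)) => (if k' = k then θ e else e0) ∈ U
      have hW0 : ∀ x, r0 ι K E F x ∈ W ↔ e0 ∈ U := fun _ => Iff.rfl
      have hW1 : ∀ y' k', r1 ι K E F y' k' ∈ W ↔ (k' ≠ k ∧ e0 ∈ U) := fun _ _ => Iff.rfl
      have hW2 : ∀ x k' e, r2 ι K E F x k' e ∈ W ↔ (if k' = k then θ e else e0) ∈ U :=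
        fun _ _ _ => Iff.rfl
      have hW : IsOpen W := by
        rw [isOpen_Res]
        refine ⟨?_, ?_, ?_⟩
        · intro x hx
          have hx' := (hW0 x).1 hx
          refine ⟨univ, isOpen_univ, mem_univ _, fun _ _ => hx, {k}, Set.finite_singleton k,
            fun k' hk' => ⟨fun y' _ => (hW1 _ _).2 ⟨hk', hx'⟩, fun x' _ e => ?_⟩⟩
          rw [hW2, if_neg (show ¬ k' = k from hk')]
          exact hx'
        · intro y' k' h
          have h' := (hW1 _ _).1 h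
          refine ⟨univ, isOpen_univ, mem_univ _, fun _ _ => (hW1 _ _).2 h', univ, Filter.univ_mem,
            fun x' _ e _ => ?_⟩
          rw [hW2, if_neg h'.1]
          exact h'.2
        · intro x k' e h
          have h' := (hW2 _ _ _).1 h
          exact ⟨univ, isOpen_univ, mem_univ _, fun _ _ => (hW2 _ _ _).2 h'⟩
      have : Ψ ⁻¹' U = jR ι K E F ⁻¹' W := by
        ext z
        rcases z with x | ⟨x, k', e⟩
        · exact (hW0 x).symm
        · exact (hW2 x k' e).symm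
      rw [this]
      exact hW.preimage (jR_inducing ι K E F).continuous
    have hΦΨ : ∀ z, f (Ψ z) = Φ (jR ι K E F z) := by
      rintro (x | ⟨x, k', e⟩)
      · rfl
      · show f (if k' = k then θ e else e0) = if k' = k then f (θ e) else f e0
        split_ifs <;> rfl
    obtain ⟨s, -, hs⟩ := hlp (hf p hp) ⟨fun a' => Ψ (u' a'), hΨ.comp u'.continuous⟩
      ⟨fun b' => Φ (v' b'), hΦ.comp v'.continuous⟩ (by
        intro a'
        show f (Ψ (u' a')) = Φ (v' (p a'))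
        rw [hΦΨ, huv'])
    have hs' : f (s b') = Φ (v' b') := hs b'
    rw [hyk, hΦ1, if_pos rfl] at hs'
    exact hy0 ⟨_, hs'⟩
  choose k hk using hrange
  refine ⟨⟨k, ?_⟩, fun a' => jR_injective ι K E F ((hk _).trans (huv' a').symm), hk⟩
  rw [(jR_inducing ι K E F).continuous_iff]
  have : (jR ι K E F ∘ k) = v' := funext hk
  rw [this]
  exact v'.continuous

theorem lift_of_JR {A B : TopCat.{u}} (g : A ⟶ B) (hι : IsEmbedding ι)
    (hcl : F.NeBot ∨ IsClosed (range ι))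
    (H : HasLiftingProperty (JR ι (Set ((Y → A) ⊕ ULift.{u} ℕ)) E F) g) :
    HasLiftingProperty ι g := by
  classical
  apply hlp_of
  intro u v huv
  set K := Set ((Y → A) ⊕ ULift.{u} ℕ) with hK
  let u2 : RX ι K E F → A := fun z =>
    match z with
    | Sum.inl x => u x
    | Sum.inr (x, _, _) => u x
  have hu2 : Continuous u2 := by
    rw [continuous_def]
    intro U hU
    obtain ⟨O, hO, hOU⟩ := hι.isInducing.isOpen_iff.1 (hU.preimage u.continuous)
    have : u2 ⁻¹' U = jR ι K E F ⁻¹' (πR ι K E F ⁻¹' O) := by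
      ext z
      rcases z with x | ⟨x, k', e⟩
      · exact (Set.ext_iff.1 hOU x).symm
      · exact (Set.ext_iff.1 hOU x).symm
    rw [this]
    exact (hO.preimage (continuous_πR ι K E F)).preimage (jR_inducing ι K E F).continuous
  obtain ⟨k, hk1, hk2⟩ := hlp H ⟨u2, hu2⟩ ⟨fun z => v (πR ι K E F z),
    v.continuous.comp (continuous_πR ι K E F)⟩ (by
      rintro (x | ⟨x, k', e⟩)
      · exact huv x
      · exact huv x)
  have hk0 : ∀ x, k (r0 ι K E F x) = u x := fun x => hk1 (Sum.inl x : X ⊕ (X × K × E))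
  have hk3 : ∀ x l e, k (r2 ι K E F x l e) = u x :=
    fun x l e => hk1 (Sum.inr (x, l, e) : X ⊕ (X × K × E))
  have hk4 : ∀ y l, g (k (r1 ι K E F y l)) = v y := fun y l => hk2 (r1 ι K E F y l)
  -- the pigeonhole principle
  obtain ⟨κ, hκ⟩ : ∃ κ : Y → A, {l : K | (fun y => k (r1 ι K E F y l)) = κ}.Infinite := by
    have hinf : Infinite ((Y → A) ⊕ ULift.{u} ℕ) := Sum.infinite_of_right
    obtain ⟨c, hc⟩ := Cardinal.exists_infinite_fiber'
      (fun l : K => (Sum.inl (fun y => k (r1 ι K E F y l)) : (Y → A) ⊕ ULift.{u} ℕ))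
      (by
        have h := Cardinal.cantor (Cardinal.mk ((Y → A) ⊕ ULift.{u} ℕ))
        rw [← Cardinal.mk_set] at h
        exact h)
    rcases c with κ | n
    · refine ⟨κ, ?_⟩
      rw [Set.infinite_coe_iff] at hc
      convert hc using 1
      ext l
      constructor
      · intro h
        exact congrArg Sum.inl h
      · intro h
        exact Sum.inl.inj h
    · exfalso
      obtain ⟨l⟩ : Nonempty ((fun l : K => (Sum.inl (fun y => k (r1 ι K E F y l)) :
        (Y → A) ⊕ ULift.{u} ℕ)) ⁻¹' {Sum.inr n}) := hc.nonempty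
      cases l.2
  have hex : ∀ y, ∃ a, g a = v y ∧ (∀ x, ι x = y → u x = a) ∧ ((∀ x, ι x ≠ y) → κ y = a) := by
    intro y
    by_cases hy : ∃ x, ι x = y
    · obtain ⟨x, rfl⟩ := hy
      exact ⟨u x, huv x, fun x' hx' => congrArg u (hι.injective hx'), fun h => (h x rfl).elim⟩
    · obtain ⟨l, hl⟩ := hκ.nonempty
      refine ⟨κ y, ?_, fun x hx => (hy ⟨x, hx⟩).elim, fun _ => rfl⟩
      have hl' : (fun y => k (r1 ι K E F y l)) = κ := hl
      rw [← hl']
      exact hk4 y l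
  choose h0 hh1 hh2 hh3 using hex
  refine ⟨⟨h0, ?_⟩, fun x => (hh2 _ x rfl).symm, hh1⟩
  rw [continuous_def]
  intro U hU
  rw [isOpen_iff_forall_mem_open]
  intro y hy
  have hopen := (isOpen_Res ι K E F _).1 (hU.preimage k.continuous)
  by_cases hyr : ∃ x, ι x = y
  · obtain ⟨x, rfl⟩ := hyr
    have hx : r0 ι K E F x ∈ k ⁻¹' U := by
      show k (r0 ι K E F x) ∈ U
      rw [hk0, hh2 _ x rfl]
      exact hy
    obtain ⟨O, hO, hxO, ha, T, hT, hb⟩ := hopen.1 x hx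
    obtain ⟨l, hl, hlT⟩ := hκ.exists_notMem_finite hT
    refine ⟨O, ?_, hO, hxO⟩
    intro y' hy'
    show h0 y' ∈ U
    by_cases hy'r : ∃ x', ι x' = y'
    · obtain ⟨x', rfl⟩ := hy'r
      rw [← hh2 _ x' rfl, ← hk0]
      exact ha x' hy'
    · rw [← hh3 y' fun x' hx' => hy'r ⟨x', hx'⟩]
      have hl' : (fun y => k (r1 ι K E F y l)) = κ := hl
      rw [← hl']
      exact (hb l hlT).1 y' hy'
  · obtain ⟨l, hl⟩ := hκ.nonempty
    have hl' : (fun y => k (r1 ι K E F y l)) = κ := hl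
    have hy1 : r1 ι K E F y l ∈ k ⁻¹' U := by
      show k (r1 ι K E F y l) ∈ U
      have h5 : k (r1 ι K E F y l) = κ y := congrFun hl' y
      rw [h5, hh3 y fun x' hx' => hyr ⟨x', hx'⟩]
      exact hy
    obtain ⟨O, hO, hyO, ha, G, hG, hb⟩ := hopen.2.1 y l hy1
    have hκO : ∀ y' ∈ O, (∀ x', ι x' ≠ y') → h0 y' ∈ U := by
      intro y' hy' hne
      rw [← hh3 y' hne, ← hl']
      exact ha y' hy'
    rcases hcl with hF | hcl
    · refine ⟨O, ?_, hO, hyO⟩
      intro y' hy'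
      show h0 y' ∈ U
      by_cases hy'r : ∃ x', ι x' = y'
      · obtain ⟨x', rfl⟩ := hy'r
        obtain ⟨e, he⟩ := hF.nonempty_of_mem hG
        rw [← hh2 _ x' rfl, ← hk3 x' l e]
        exact hb x' hy' e he
      · exact hκO y' hy' fun x' hx' => hy'r ⟨x', hx'⟩
    · refine ⟨O ∩ (range ι)ᶜ, ?_, hO.inter hcl.isOpen_compl, hyO, ?_⟩
      · rintro y' ⟨hy', hy'r⟩
        exact hκO y' hy' fun x' hx' => hy'r ⟨x', hx'⟩
      · rintro ⟨x', hx'⟩
        exact hyr ⟨x', hx'⟩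

end Res

/-- If `P^r` contains a map with nonempty domain which is not surjective, then the maps in `P^rr`
have the right lifting property with respect to the closed embeddings. -/
theorem rlp_le_CE (P : MP.{u}) {Xf Yf : TopCat.{u}} (f : Xf ⟶ Yf) (hf : P.rlp f) (e0 : Xf) (y0 : Yf)
    (hy0 : y0 ∉ range f) : P.rlp.rlp ≤ CE.rlp := by
  intro A B g hg X Y ι hι
  refine lift_of_JR ι PEmpty.{u + 1} ⊥ g hι.1 (Or.inr hι.2) (hg _ ?_)
  exact JR_mem ι _ _ _ P f hf e0 y0 hy0 PEmpty.elim Filter.tendsto_bot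

/-- If `P^r` contains a map whose image is not closed, then the maps in `P^rr` have the right
lifting property with respect to all embeddings. -/
theorem rlp_le_Emb (P : MP.{u}) {Xf Yf : TopCat.{u}} (f : Xf ⟶ Yf) (hf : P.rlp f)
    (hcl : ¬ IsClosed (range f)) : P.rlp.rlp ≤ Emb.rlp := by
  obtain ⟨y0, hy0, hy0'⟩ : ∃ y0, y0 ∈ closure (range f) ∧ y0 ∉ range f := by
    by_contra hcon
    push Not at hcon
    exact hcl (isClosed_of_closure_subset hcon)
  have hne : (Filter.comap f (𝓝 y0)).NeBot := by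
    rw [Filter.comap_neBot_iff]
    intro t ht
    obtain ⟨y, hy1, x, hx⟩ := mem_closure_iff_nhds.1 hy0 t ht
    exact ⟨x, by rw [hx]; exact hy1⟩
  obtain ⟨e0⟩ : Nonempty Xf := by
    obtain ⟨_, x, -⟩ := closure_nonempty_iff.1 ⟨y0, hy0⟩
    exact ⟨x⟩
  intro A B g hg X Y ι hι
  refine lift_of_JR ι Xf (Filter.comap f (𝓝 y0)) g hι (Or.inl hne) (hg _ ?_)
  exact JR_mem ι _ _ _ P f hf e0 y0 hy0' id Filter.tendsto_comap

end Pool.Agent.R651.QN
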